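import Pool.Agent.W603.LV.Ex
import Pool.Agent.Helper386.D5V.Helper386_FF_Riemann

/-!
Points of a curve with values in an extension field are separated by the functions with poles at
few general points of the curve.
-/

set_option autoImplicit false
set_option linter.overlappingInstances false
set_option linter.unusedSectionVars false

open FF Module Pool.Agent.W603.LV

namespace Pool.Agent.K6.H85

section

variable {k L Ω : Type} [Field k] [Field L] [Algebra k L] [CharZero k] [IsAlgClosed k] [IsFF k L]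
  [Field Ω] [Algebra k Ω]

theorem const_zero (P : Place k L) {c : k} (h : Ge P 1 (algebraMap k L c)) : c = 0 := by
  by_contra hc
  rcases h with h | h
  · exact hc ((map_eq_zero _).1 h)
  · rw [P.ord_const hc] at h; omega

theorem exists_place_not_mem (T : Finset (Place k L)) : ∃ P : Place k L, P ∉ T := by
  classical
  obtain ⟨t, ht⟩ := IsFF.exists_transcendental (k := k) (K := L)
  have hzero : ∀ c : k, ∃ P : Place k L, 0 < P.ord (t - algebraMap k L c) := by
    intro c
    have htc : Transcendental k (t - algebraMap k L c) := by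
      intro h
      apply ht
      have := h.add (isAlgebraic_algebraMap (A := L) c)
      simpa using this
    obtain ⟨S, hS, -, hS2⟩ := zeros (k := k) htc
    have h2 := IsFF.finite htc
    have h3 : 0 < Module.finrank (IntermediateField.adjoin k {t - algebraMap k L c}) L :=
      Module.finrank_pos
    rw [← hS2] at h3
    obtain ⟨w, hw, -⟩ := Finset.exists_ne_zero_of_sum_ne_zero h3.ne'
    exact ⟨w, (hS w).1 hw⟩
  choose p hp using hzero
  have hinj : Function.Injective p := by
    intro c c' hcc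
    by_contra hne
    have h1 := hp c
    have h2 := hp c'
    rw [← hcc] at h2
    have h3 : Ge (p c) 1 (t - algebraMap k L c) := Or.inr h1
    have h4 : Ge (p c) 1 (t - algebraMap k L c') := Or.inr h2
    have h5 : Ge (p c) 1 (algebraMap k L (c' - c)) := by
      have := h3.sub h4
      rw [map_sub]
      convert this using 1
      ring
    exact hne (sub_eq_zero.1 (const_zero _ h5)).symm
  have : Infinite (Place k L) := Infinite.of_injective p hinj
  exact Infinite.exists_notMem_finset T

/-- the relations between the values at the points of `U` of the functions in `LL D` -/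
def Rl (U : Finset (L →ₐ[k] Ω)) (D : Place k L →₀ ℤ) : Submodule Ω (U → Ω) where
  carrier := {a | ∀ f ∈ LL D, ∑ u : U, a u * u.1 f = 0}
  zero_mem' := by
    intro f _
    simp
  add_mem' := by
    intro a b ha hb f hf
    simp only [Pi.add_apply, add_mul, Finset.sum_add_distrib]
    rw [ha f hf, hb f hf, add_zero]
  smul_mem' := by
    intro c a ha f hf
    simp only [Pi.smul_apply, smul_eq_mul, mul_assoc]
    rw [← Finset.mul_sum, ha f hf, mul_zero]

theorem mem_Rl {U : Finset (L →ₐ[k] Ω)} {D : Place k L →₀ ℤ} {a : U → Ω} :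
    a ∈ Rl U D ↔ ∀ f ∈ LL D, ∑ u : U, a u * u.1 f = 0 := Iff.rfl

theorem Rl_anti (U : Finset (L →ₐ[k] Ω)) {D E : Place k L →₀ ℤ} (h : D ≤ E) :
    Rl U E ≤ Rl U D := fun _ ha f hf => ha f (LL_mono h hf)

/-- the dimension of `H¹` of the divisor `D - U`, up to a constant -/
noncomputable def sv (U : Finset (L →ₐ[k] Ω)) (D : Place k L →₀ ℤ) : ℤ :=
  ell D - ddeg D + finrank Ω (Rl U D)

theorem single_nonneg (P : Place k L) : (0 : Place k L →₀ ℤ) ≤ Finsupp.single P 1 := by
  classical
  intro Q
  rw [Finsupp.single_apply]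
  split_ifs <;> simp

theorem ddeg_single_one (P : Place k L) : ddeg (Finsupp.single P (1 : ℤ)) = 1 := by
  rw [ddeg_single, deg_one]
  norm_num

theorem sv_le (U : Finset (L →ₐ[k] Ω)) (D : Place k L →₀ ℤ) (P : Place k L) :
    sv U (D + Finsupp.single P 1) ≤ sv U D := by
  have h0 : D ≤ D + Finsupp.single P 1 := le_add_of_nonneg_right (single_nonneg P)
  have h1 := ell_le h0
  have h2 : finrank Ω (Rl U (D + Finsupp.single P 1)) ≤ finrank Ω (Rl U D) :=
    Submodule.finrank_mono (Rl_anti U h0)
  have h3 : ddeg (D + Finsupp.single P (1 : ℤ)) = ddeg D + 1 := by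
    rw [ddeg_add, ddeg_single_one]
  unfold sv
  rw [h3] at h1 ⊢
  omega

theorem sv_eq {U : Finset (L →ₐ[k] Ω)} {D : Place k L →₀ ℤ} {P : Place k L}
    (h : sv U (D + Finsupp.single P 1) = sv U D) :
    ∃ f ∈ LL (D + Finsupp.single P 1), f ∉ LL D ∧ ∀ a ∈ Rl U D, ∑ u : U, a u * u.1 f = 0 := by
  have h0 : D ≤ D + Finsupp.single P 1 := le_add_of_nonneg_right (single_nonneg P)
  have h1 := ell_le h0
  have h2 : finrank Ω (Rl U (D + Finsupp.single P 1)) ≤ finrank Ω (Rl U D) :=
    Submodule.finrank_mono (Rl_anti U h0)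
  have h3 : ddeg (D + Finsupp.single P (1 : ℤ)) = ddeg D + 1 := by
    rw [ddeg_add, ddeg_single_one]
  unfold sv at h
  rw [h3] at h1 h
  have h4 : ell (D + Finsupp.single P 1) = ell D + 1 := by omega
  have h5 : finrank Ω (Rl U (D + Finsupp.single P 1)) = finrank Ω (Rl U D) := by omega
  have h6 : Rl U (D + Finsupp.single P 1) = Rl U D :=
    Submodule.eq_of_le_of_finrank_eq (Rl_anti U h0) h5
  have h7 : ¬ LL (D + Finsupp.single P 1) ≤ LL D := by
    intro h8
    have h9 := Submodule.finrank_mono h8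
    unfold ell at h4
    omega
  obtain ⟨f, hf, hf'⟩ := SetLike.not_le_iff_exists.1 h7
  refine ⟨f, hf, hf', fun a ha => ?_⟩
  rw [← h6] at ha
  exact ha f hf

theorem sum_single_nonneg (T : Finset (Place k L)) :
    (0 : Place k L →₀ ℤ) ≤ ∑ P ∈ T, Finsupp.single P 1 :=
  Finset.sum_nonneg fun P _ => single_nonneg P

theorem sum_single_apply [DecidableEq (Place k L)] (T : Finset (Place k L)) (P : Place k L)
    (hP : P ∉ T) : (∑ Q ∈ T, Finsupp.single Q (1 : ℤ)) P = 0 := by
  rw [Finsupp.finsetSum_apply]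
  refine Finset.sum_eq_zero fun Q hQ => ?_
  rw [Finsupp.single_apply, if_neg]
  rintro rfl
  exact hP hQ

theorem sv_many {U : Finset (L →ₐ[k] Ω)} {D : Place k L →₀ ℤ} (T : Finset (Place k L))
    (h : ∀ P ∈ T, ∃ f ∈ LL (D + Finsupp.single P 1), f ∉ LL D ∧
      ∀ a ∈ Rl U D, ∑ u : U, a u * u.1 f = 0) :
    Rl U (D + ∑ P ∈ T, Finsupp.single P 1) = Rl U D ∧
      ell (D + ∑ P ∈ T, Finsupp.single P 1) = ell D + T.card := by
  classical
  induction T using Finset.induction_on with
  | empty => simp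
  | insert P T hPT ih =>
    obtain ⟨ih1, ih2⟩ := ih fun Q hQ => h Q (Finset.mem_insert_of_mem hQ)
    obtain ⟨f, hf, hf', hfa⟩ := h P (Finset.mem_insert_self _ _)
    obtain ⟨D', hD'⟩ : ∃ D', D' = D + ∑ Q ∈ T, Finsupp.single Q (1 : ℤ) := ⟨_, rfl⟩
    rw [← hD'] at ih1 ih2
    have hsum : D + ∑ Q ∈ insert P T, Finsupp.single Q (1 : ℤ) = D' + Finsupp.single P 1 := by
      rw [Finset.sum_insert hPT, hD']
      abel
    rw [hsum, Finset.card_insert_of_notMem hPT]
    have hDD' : D ≤ D' := by
      rw [hD']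
      exact le_add_of_nonneg_right (sum_single_nonneg T)
    have h0 : D' ≤ D' + Finsupp.single P 1 := le_add_of_nonneg_right (single_nonneg P)
    have hfD'' : f ∈ LL (D' + Finsupp.single P 1) :=
      LL_mono (add_le_add_left hDD' _) hf
    have hf0 : f ≠ 0 := by
      rintro rfl
      exact hf' (Submodule.zero_mem _)
    have hP : P.ord f < - D P := by
      by_contra hcon
      push Not at hcon
      apply hf'
      rw [mem_LL]
      right
      intro Q
      by_cases hQ : Q = P
      · rw [hQ]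
        exact hcon
      · have h1 := (mem_LL.1 hf).resolve_left hf0 Q
        rw [Finsupp.add_apply, Finsupp.single_apply, if_neg (Ne.symm hQ), add_zero] at h1
        exact h1
    have hDP : D' P = D P := by
      rw [hD', Finsupp.add_apply, sum_single_apply T P hPT, add_zero]
    have hfD' : f ∉ LL D' := by
      intro hcon
      have h1 := (mem_LL.1 hcon).resolve_left hf0 P
      omega
    have hlt : LL D' < LL D' ⊔ Submodule.span k {f} := by
      refine lt_of_le_of_ne le_sup_left fun heq => hfD' ?_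
      rw [heq]
      exact Submodule.mem_sup_right (Submodule.mem_span_singleton_self f)
    have hle : LL D' ⊔ Submodule.span k {f} ≤ LL (D' + Finsupp.single P 1) :=
      sup_le (LL_mono h0) (by
        rw [Submodule.span_singleton_le_iff_mem]
        exact hfD'')
    have h1 := Submodule.finrank_lt_finrank_of_lt hlt
    have h2 := Submodule.finrank_mono hle
    have h3 := ell_le h0
    have h4 : ddeg (D' + Finsupp.single P (1 : ℤ)) = ddeg D' + 1 := by
      rw [ddeg_add, ddeg_single_one]
    rw [h4] at h3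
    have h5 : ell (D' + Finsupp.single P 1) = ell D' + 1 := by
      unfold ell at h3 ⊢
      omega
    have h6 : LL D' ⊔ Submodule.span k {f} = LL (D' + Finsupp.single P 1) := by
      refine Submodule.eq_of_le_of_finrank_le hle ?_
      unfold ell at h5
      omega
    refine ⟨?_, ?_⟩
    · rw [← ih1]
      refine le_antisymm (Rl_anti U h0) fun a ha => ?_
      rw [mem_Rl]
      intro g hg
      rw [← h6, Submodule.mem_sup] at hg
      obtain ⟨g1, hg1, g2, hg2, rfl⟩ := hg
      obtain ⟨c, rfl⟩ := Submodule.mem_span_singleton.1 hg2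
      have e1 := ha g1 hg1
      have e2 := hfa a (by rw [← ih1]; exact ha)
      have e3 : ∀ u : U, a u * u.1 (g1 + c • f) = a u * u.1 g1 + algebraMap k Ω c * (a u * u.1 f) := by
        intro u
        rw [map_add, map_smul, Algebra.smul_def]
        ring
      rw [Finset.sum_congr rfl fun u _ => e3 u, Finset.sum_add_distrib, ← Finset.mul_sum, e1, e2,
        mul_zero, add_zero]
    · rw [h5, ih2]
      push_cast
      ring

theorem mem_LL_add_polar {E : Place k L →₀ ℤ} (hE : 0 ≤ E) (f : L) : f ∈ LL (E + polar f) := by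
  rw [mem_LL]
  right
  intro P
  have h1 := hE P
  rw [Finsupp.add_apply, polar_apply]
  simp only [Finsupp.coe_zero, Pi.zero_apply] at h1
  omega

/-- enough functions separate the points -/
theorem exists_Rl_bot (U : Finset (L →ₐ[k] Ω)) : ∃ E : Place k L →₀ ℤ, Rl U E = ⊥ := by
  classical
  obtain ⟨n, hn⟩ : ∃ n, ∃ E : Place k L →₀ ℤ, 0 ≤ E ∧ finrank Ω (Rl U E) = n := ⟨_, 0, le_rfl, rfl⟩
  induction n using Nat.strong_induction_on with
  | _ n ih =>
    obtain ⟨E, hE, hEn⟩ := hn
    by_cases hb : Rl U E = ⊥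
    · exact ⟨E, hb⟩
    obtain ⟨a, ha, ha0⟩ := (Submodule.ne_bot_iff _).1 hb
    have h1 : ∃ f : L, ∑ u : U, a u * u.1 f ≠ 0 := by
      by_contra hcon
      push Not at hcon
      have h2 := linearIndependent_monoidHom L Ω
      have h3 := h2.comp (fun u : U => ((u.1 : L →ₐ[k] Ω) : L →* Ω)) (by
        intro u v huv
        apply Subtype.ext
        ext f
        exact congrArg (fun g : L →* Ω => g f) huv)
      rw [Fintype.linearIndependent_iff] at h3
      apply ha0
      funext u
      refine h3 a ?_ u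
      funext f
      have h4 := hcon f
      simpa [Finset.sum_apply] using h4
    obtain ⟨f, hf⟩ := h1
    have h2 : Rl U (E + polar f) < Rl U E := by
      refine lt_of_le_of_ne (Rl_anti U (le_add_of_nonneg_right (polar_nonneg f))) fun heq => ?_
      rw [← heq] at ha
      exact hf (ha f (mem_LL_add_polar hE f))
    exact ih _ (by rw [← hEn]; exact Submodule.finrank_lt_finrank_of_lt h2)
      ⟨E + polar f, add_nonneg hE (polar_nonneg f), rfl⟩

theorem Rl_bot_of {U : Finset (L →ₐ[k] Ω)} {D E : Place k L →₀ ℤ} (hE : Rl U E = ⊥)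
    (h : 0 < ell (D - E)) : Rl U D = ⊥ := by
  obtain ⟨z, hz, hz0⟩ := exists_ne_zero_of_ell_pos h
  rw [eq_bot_iff]
  intro a ha
  have h1 : (fun u : U => a u * u.1 z) ∈ Rl U E := by
    rw [mem_Rl]
    intro f hf
    have h2 : z * f ∈ LL D := by
      rw [mem_LL]
      by_cases hf0 : f = 0
      · left
        rw [hf0, mul_zero]
      right
      intro P
      have e1 := (mem_LL.1 hz).resolve_left hz0 P
      have e2 := (mem_LL.1 hf).resolve_left hf0 P
      rw [Finsupp.sub_apply] at e1
      rw [P.ord_mul hz0 hf0]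
      omega
    have h3 := ha _ h2
    rw [← h3]
    refine Finset.sum_congr rfl fun u _ => ?_
    rw [map_mul]
    ring
  rw [hE, Submodule.mem_bot] at h1
  rw [Submodule.mem_bot]
  funext u
  have h2 := congrFun h1 u
  have h3 : u.1 z ≠ 0 := by
    rw [Ne, map_eq_zero]
    exact hz0
  exact (mul_eq_zero.1 h2).resolve_right h3

theorem exists_many (M : ℕ) (S : Finset (Place k L)) :
    ∃ T : Finset (Place k L), T.card = M ∧ Disjoint T S := by
  classical
  induction M with
  | zero => exact ⟨∅, rfl, Finset.disjoint_empty_left _⟩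
  | succ M ih =>
    obtain ⟨T, hT, hTS⟩ := ih
    obtain ⟨P, hP⟩ := exists_place_not_mem (k := k) (L := L) (T ∪ S)
    rw [Finset.mem_union, not_or] at hP
    refine ⟨insert P T, ?_, ?_⟩
    · rw [Finset.card_insert_of_notMem hP.1, hT]
    · rw [Finset.disjoint_insert_left]
      exact ⟨hP.2, hTS⟩

theorem ddeg_sum_single (T : Finset (Place k L)) :
    ddeg (∑ P ∈ T, Finsupp.single P (1 : ℤ)) = T.card := by
  classical
  induction T using Finset.induction_on with
  | empty => simp [ddeg_zero]
  | insert P T hPT ih =>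
    rw [Finset.sum_insert hPT, ddeg_add, ih, ddeg_single_one, Finset.card_insert_of_notMem hPT]
    push_cast
    ring

theorem exists_drop {γ N : ℤ} (h1 : ∀ D : Place k L →₀ ℤ, ddeg D - γ ≤ ell D)
    (h2 : ∀ D : Place k L →₀ ℤ, N ≤ ddeg D → ell D = ddeg D - γ)
    (U : Finset (L →ₐ[k] Ω)) (D : Place k L →₀ ℤ) (hD : 0 < sv U D + γ) (S : Finset (Place k L)) :
    ∃ P ∉ S, sv U (D + Finsupp.single P 1) < sv U D := by
  by_contra hcon
  push Not at hcon
  have h3 : ∀ P ∉ S, ∃ f ∈ LL (D + Finsupp.single P 1), f ∉ LL D ∧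
      ∀ a ∈ Rl U D, ∑ u : U, a u * u.1 f = 0 := fun P hP =>
    sv_eq (le_antisymm (sv_le U D P) (hcon P hP))
  obtain ⟨E, hE⟩ := exists_Rl_bot U
  obtain ⟨M, hM⟩ : ∃ M : ℕ, M = (N - ddeg D).toNat + (ddeg E - ddeg D + γ + 1).toNat := ⟨_, rfl⟩
  obtain ⟨T, hT, hTS⟩ := exists_many M S
  obtain ⟨h4, h5⟩ := sv_many T fun P hP => h3 P (Finset.disjoint_left.1 hTS hP)
  have h6 : ddeg (D + ∑ P ∈ T, Finsupp.single P (1 : ℤ)) = ddeg D + M := by
    rw [ddeg_add, ddeg_sum_single, hT]
  have h7 : Rl U (D + ∑ P ∈ T, Finsupp.single P 1) = ⊥ := by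
    refine Rl_bot_of hE ?_
    have h8 := h1 (D + ∑ P ∈ T, Finsupp.single P (1 : ℤ) - E)
    rw [ddeg_sub, h6] at h8
    omega
  have h8 := h2 (D + ∑ P ∈ T, Finsupp.single P (1 : ℤ)) (by omega)
  rw [h6, h5, hT] at h8
  rw [h4] at h7
  unfold sv at hD
  rw [h7, finrank_bot] at hD
  omega

theorem ell_zero_le : ell (0 : Place k L →₀ ℤ) ≤ 1 := by
  obtain ⟨P, -⟩ := exists_place (k := k) (K := L)
  have h1 : (0 : Place k L →₀ ℤ) - Finsupp.single P 1 ≤ 0 := by
    rw [zero_sub, Left.neg_nonpos_iff]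
    exact single_nonneg P
  have h2 := ell_le h1
  have h3 : ddeg ((0 : Place k L →₀ ℤ) - Finsupp.single P 1) = -1 := by
    rw [ddeg_sub, ddeg_zero, ddeg_single_one]
    norm_num
  have h4 : ell ((0 : Place k L →₀ ℤ) - Finsupp.single P 1) = 0 := by
    unfold ell
    rw [LL_eq_bot (by rw [h3]; norm_num), finrank_bot]
    rfl
  rw [h3, h4, ddeg_zero] at h2
  omega

theorem one_mem_LL : (1 : L) ∈ LL (0 : Place k L →₀ ℤ) := by
  rw [mem_LL]
  right
  intro P
  rw [P.ord_one]
  simp

theorem finrank_Rl_zero {U : Finset (L →ₐ[k] Ω)} (hU : U.Nonempty) :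
    finrank Ω (Rl U (0 : Place k L →₀ ℤ)) + 1 ≤ U.card := by
  classical
  obtain ⟨φ, hφ⟩ : ∃ φ : (U → Ω) →ₗ[Ω] Ω, ∀ a, φ a = ∑ u : U, a u :=
    ⟨∑ u : U, LinearMap.proj u, fun a => by simp⟩
  have h1 : Rl U (0 : Place k L →₀ ℤ) ≤ LinearMap.ker φ := by
    intro a ha
    rw [LinearMap.mem_ker, hφ]
    have h2 := ha 1 one_mem_LL
    simpa using h2
  have h2 := LinearMap.finrank_range_add_finrank_ker φ
  rw [Module.finrank_fintype_fun_eq_card, Fintype.card_coe] at h2
  have h3 := Submodule.finrank_mono h1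
  have h4 : 0 < finrank Ω (LinearMap.range φ) := by
    rw [Module.finrank_pos_iff_exists_ne_zero]
    obtain ⟨u, hu⟩ := hU
    refine ⟨⟨φ (Pi.single ⟨u, hu⟩ 1), LinearMap.mem_range_self _ _⟩, ?_⟩
    intro h0
    have h5 : φ (Pi.single ⟨u, hu⟩ 1) = 0 := congrArg Subtype.val h0
    rw [hφ, Finset.sum_pi_single'] at h5
    simp at h5
  omega

/-- **Separation of points.** A curve has `γ + n - 1` points such that the functions with at most
simple poles at these points (with multiplicities) separate `n` given points with values in `Ω`. -/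
theorem exists_sep {γ : ℕ} (hγ : ∀ D : Place k L →₀ ℤ, ddeg D + 1 ≤ ell D + γ)
    {U : Finset (L →ₐ[k] Ω)} (hU : U.Nonempty) {N : ℕ} (hN : γ + U.card ≤ N + 1) :
    ∃ Q : Fin N → Place k L, Rl U (∑ i, Finsupp.single (Q i) 1) = ⊥ := by
  obtain ⟨γ', N', h1, h2⟩ := riemann k L
  have hγ' : γ' + 1 ≤ γ := by
    obtain ⟨P, -⟩ := exists_place (k := k) (K := L)
    have h3 : ddeg (Finsupp.single P (N'.toNat : ℤ)) = N'.toNat := by
      rw [ddeg_single, deg_one]
      norm_num
    have h4 := h2 (Finsupp.single P (N'.toNat : ℤ)) (by rw [h3]; omega)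
    have h5 := hγ (Finsupp.single P (N'.toNat : ℤ))
    omega
  have h3 : ∀ j : ℕ, ∃ Q : Fin j → Place k L,
      sv U (∑ i, Finsupp.single (Q i) 1) ≤ max (-γ') (U.card - j) := by
    intro j
    induction j with
    | zero =>
      refine ⟨Fin.elim0, ?_⟩
      have e1 := finrank_Rl_zero (k := k) hU
      have e2 := ell_zero_le (k := k) (L := L)
      have e3 : (∑ i : Fin 0, Finsupp.single (Fin.elim0 i : Place k L) (1 : ℤ)) = 0 := by simp
      rw [e3]
      unfold sv
      rw [ddeg_zero]
      refine le_trans ?_ (le_max_right _ _)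
      push_cast
      omega
    | succ j ih =>
      obtain ⟨Q, hQ⟩ := ih
      by_cases hpos : 0 < sv U (∑ i, Finsupp.single (Q i) 1) + γ'
      · obtain ⟨P, -, hP⟩ := exists_drop h1 h2 U _ hpos ∅
        refine ⟨Fin.snoc Q P, ?_⟩
        rw [Fin.sum_univ_castSucc]
        simp only [Fin.snoc_castSucc, Fin.snoc_last]
        push_cast
        omega
      · obtain ⟨P, -⟩ := exists_place (k := k) (K := L)
        refine ⟨Fin.snoc Q P, ?_⟩
        rw [Fin.sum_univ_castSucc]
        simp only [Fin.snoc_castSucc, Fin.snoc_last]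
        have h4 := sv_le U (∑ i, Finsupp.single (Q i) 1) P
        refine le_trans ?_ (le_max_left _ _)
        omega
  obtain ⟨Q, hQ⟩ := h3 N
  refine ⟨Q, ?_⟩
  have h4 := h1 (∑ i, Finsupp.single (Q i) 1)
  have h5 : (finrank Ω (Rl U (∑ i, Finsupp.single (Q i) (1 : ℤ))) : ℤ) ≤ 0 := by
    unfold sv at hQ
    have h6 : max (-γ') ((U.card : ℤ) - N) ≤ -γ' := by
      rw [max_le_iff]
      omega
    omega
  have h6 : finrank Ω (Rl U (∑ i, Finsupp.single (Q i) (1 : ℤ))) = 0 := by omega
  exact Submodule.finrank_eq_zero.1 h6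

end

end Pool.Agent.K6.H85
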