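import Pool.Agent.N162.BC.Pencil
import Pool.Agent.K6.H85.Sep

/-!
Forms which remain global forms after multiplication with functions on the base of a fibration.
-/

set_option autoImplicit false
set_option linter.overlappingInstances false
set_option linter.unusedSectionVars false

open FF Module Pool.Agent.W603.LV Pool.Agent.W602.GT Pool.Agent.N162.BC

namespace Pool.Agent.K6.H85

section

variable {K Ω : Type} [Field K] [Algebra ℂ K] [Field Ω] [Algebra ℂ Ω] {n : ℕ}

/-- Sections of the canonical bundle twisted by minus a divisor of the base: the forms `ω` such that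
`f ω` is regular at all prime divisors of `T` over a point `p` of the base, for all functions `f` on
the base with `ord_p f ≥ - D p`, and which are regular at the other prime divisors. -/
def TW (L : IntermediateField ℂ K) (n : ℕ) (D : Place ℂ L →₀ ℤ) :
    Submodule ℂ ((Fin n → Derivation ℂ K K) → K) where
  carrier := {ω | IsPluri 1 ω ∧ ∀ v : Place ℂ K, Divisorial n v → ∀ f : L,
    (∀ (p : Place ℂ L) (e : ℕ), Over v p e → Ge p (-D p) f) → RegAt v (fun X => (f : K) * ω X)}
  zero_mem' := by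
    refine ⟨fun A X => ?_, fun v _ f _ X _ => ?_⟩
    · change (0 : K) = _ * 0
      rw [mul_zero]
    · change v.Reg ((f : K) * 0)
      rw [mul_zero]
      exact v.reg_zero
  add_mem' := by
    rintro a b ⟨ha, ha'⟩ ⟨hb, hb'⟩
    refine ⟨fun A X => ?_, fun v hv f hf X hX => ?_⟩
    · change a _ + b _ = _ * (a X + b X)
      rw [ha A X, hb A X]
      ring
    · change v.Reg ((f : K) * (a X + b X))
      rw [mul_add]
      exact v.reg_add (ha' v hv f hf X hX) (hb' v hv f hf X hX)
  smul_mem' := by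
    rintro c a ⟨ha, ha'⟩
    refine ⟨fun A X => ?_, fun v hv f hf X hX => ?_⟩
    · change c • a _ = _ * (c • a X)
      rw [ha A X, Algebra.smul_def, Algebra.smul_def]
      ring
    · change v.Reg ((f : K) * (c • a X))
      rw [Algebra.smul_def, mul_left_comm]
      exact v.reg_mul (v.reg_const c) (ha' v hv f hf X hX)

theorem mem_TW {L : IntermediateField ℂ K} {D : Place ℂ L →₀ ℤ}
    {ω : (Fin n → Derivation ℂ K K) → K} : ω ∈ TW L n D ↔ IsPluri 1 ω ∧
      ∀ v : Place ℂ K, Divisorial n v → ∀ f : L,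
        (∀ (p : Place ℂ L) (e : ℕ), Over v p e → Ge p (-D p) f) →
          RegAt v (fun X => (f : K) * ω X) := Iff.rfl

theorem TW_anti {L : IntermediateField ℂ K} {D E : Place ℂ L →₀ ℤ} (h : D ≤ E) :
    TW L n E ≤ TW L n D := by
  rintro ω ⟨h1, h2⟩
  refine ⟨h1, fun v hv f hf => h2 v hv f fun p e hp => ?_⟩
  rcases hf p e hp with h3 | h3
  · exact Or.inl h3
  · right
    have := h p
    omega

/-- a place which is not over a place of the base is trivial on the base -/
theorem ord_eq_zero {L : IntermediateField ℂ K} {v : Place ℂ K}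
    (h : ∀ (p : Place ℂ L) (e : ℕ), ¬ Over v p e) (l : L) : v.ord (l : K) = 0 := by
  by_contra hcon
  obtain ⟨e, p, hp⟩ := exists_over (K := L) v ⟨l, hcon⟩
  exact h p e hp

theorem global_le_TW {L : IntermediateField ℂ K} {ω : (Fin n → Derivation ℂ K K) → K}
    (h : GlobalForm n ω) : ω ∈ TW L n 0 := by
  refine ⟨h.1, fun v hv f hf => reg_smul (h.2 v hv) ?_⟩
  by_cases h1 : ∃ (p : Place ℂ L) (e : ℕ), Over v p e
  · obtain ⟨p, e, hp⟩ := h1
    rcases hf p e hp with h2 | h2
    · left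
      rw [h2]
      rfl
    · right
      rw [Finsupp.coe_zero, Pi.zero_apply, neg_zero] at h2
      have h3 := hp.2 f
      change v.ord (f : K) = _ at h3
      rw [h3]
      positivity
  · push Not at h1
    right
    rw [ord_eq_zero h1]

theorem global_of_TW {L : IntermediateField ℂ K} {D : Place ℂ L →₀ ℤ}
    {ω : (Fin n → Derivation ℂ K K) → K} (h : ω ∈ TW L n D) {f : L} (hf : f ∈ LL D) :
    GlobalForm n (fun X => (f : K) * ω X) := by
  refine ⟨pluri_smul h.1 _, fun v hv => h.2 v hv f fun p e _ => ?_⟩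
  rcases hf with h1 | h1
  · exact Or.inl h1
  · exact Or.inr (h1 p)

theorem over_unique {L : IntermediateField ℂ K} {v : Place ℂ K} {p q : Place ℂ L} {e e' : ℕ}
    (hp : Over v p e) (hq : Over v q e') : p = q := by
  have key : ∀ (p q : Place ℂ L) (e e' : ℕ), Over v p e → Over v q e' → (e' : ℤ) ∣ e := by
    intro p q e e' hp hq
    obtain ⟨t, ht0, ht⟩ := p.surj
    have h1 := hp.2 t
    have h2 := hq.2 t
    rw [h1, ht, mul_one] at h2
    exact ⟨_, h2⟩
  have h1 := key p q e e' hp hq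
  have h2 := key q p e' e hq hp
  have h3 : e = e' := Nat.dvd_antisymm (Int.natCast_dvd_natCast.1 h2) (Int.natCast_dvd_natCast.1 h1)
  subst h3
  ext f
  have h4 := hp.2 f
  rw [hq.2 f] at h4
  have h5 : (e : ℤ) ≠ 0 := by
    have := hp.1
    omega
  exact (mul_left_cancel₀ h5 h4).symm

/-- One step: a linear relation between the forms over the function field of the base gives a form with
one more zero. -/
theorem TW_step {L : IntermediateField ℂ K} [IsFF ℂ L] (D : Place ℂ L →₀ ℤ) (q : Place ℂ L)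
    {g : ℕ} {ω : Fin (g + 1) → (Fin n → Derivation ℂ K K) → K} (hω : ∀ i, ω i ∈ TW L n D)
    (l : Fin (g + 1) → L) (hl0 : l ≠ 0) (hrel : ∀ X, ∑ i, (l i : K) * ω i X = 0) :
    ∃ a : Fin (g + 1) → ℂ, a ≠ 0 ∧ ∑ i, a i • ω i ∈ TW L n (D + Finsupp.single q 1) := by
  classical
  -- normalise the relation
  obtain ⟨i0, hi0, himin⟩ : ∃ i0, l i0 ≠ 0 ∧ ∀ i, l i ≠ 0 → q.ord (l i0) ≤ q.ord (l i) := by
    obtain ⟨j, hj⟩ := Function.ne_iff.1 hl0
    obtain ⟨i0, h1, h2⟩ := Finset.exists_min_image (Finset.univ.filter fun i => l i ≠ 0)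
      (fun i => q.ord (l i)) ⟨j, by simpa using hj⟩
    exact ⟨i0, by simpa using h1, fun i hi => h2 i (by simpa using hi)⟩
  obtain ⟨m, hm⟩ : ∃ m : Fin (g + 1) → L, ∀ i, m i = l i / l i0 := ⟨_, fun i => rfl⟩
  have hm0 : ∀ i, Ge q 0 (m i) := by
    intro i
    by_cases hi : l i = 0
    · left
      rw [hm, hi, zero_div]
    · right
      rw [hm, q.ord_div hi hi0]
      have := himin i hi
      omega
  have hmrel : ∀ X, ∑ i, (m i : K) * ω i X = 0 := by
    intro X
    have h1 : ∑ i, (m i : K) * ω i X = (l i0 : K)⁻¹ * ∑ i, (l i : K) * ω i X := by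
      rw [Finset.mul_sum]
      refine Finset.sum_congr rfl fun i _ => ?_
      rw [hm]
      push_cast
      ring
    rw [h1, hrel, mul_zero]
  choose a ha using fun i => exists_const q (hm0 i)
  have ha0 : a ≠ 0 := by
    intro h0
    have h1 := ha i0
    rw [congrFun h0 i0, hm, div_self hi0] at h1
    simp only [Pi.zero_apply, map_zero, sub_zero] at h1
    rcases h1 with h1 | h1
    · exact one_ne_zero h1
    · rw [q.ord_one] at h1
      omega
  refine ⟨a, ha0, ?_⟩
  have hform : ∀ X, (∑ i, a i • ω i) X = ∑ i, algebraMap ℂ K (a i) * ω i X := by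
    intro X
    rw [Finset.sum_apply]
    refine Finset.sum_congr rfl fun i _ => ?_
    rw [Pi.smul_apply, Algebra.smul_def]
  have hsum : (∑ i, a i • ω i) ∈ TW L n D :=
    Submodule.sum_mem _ fun i _ => Submodule.smul_mem _ _ (hω i)
  refine ⟨hsum.1, fun v hv f hf => ?_⟩
  by_cases hq : ∃ e, Over v q e
  · obtain ⟨e, hq⟩ := hq
    have hfq := hf q e hq
    rw [Finsupp.add_apply, Finsupp.single_eq_same] at hfq
    have h2 : (fun X => (f : K) * (∑ i, a i • ω i) X) =
        fun X => ∑ i, (1 : K) * (((f * (algebraMap ℂ L (a i) - m i) : L) : K) * ω i X) := by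
      funext X
      rw [hform]
      have h3 := hmrel X
      have h4 : ∑ i, (1 : K) * (((f * (algebraMap ℂ L (a i) - m i) : L) : K) * ω i X) =
          (f : K) * ∑ i, algebraMap ℂ K (a i) * ω i X - (f : K) * ∑ i, (m i : K) * ω i X := by
        rw [Finset.mul_sum, Finset.mul_sum, ← Finset.sum_sub_distrib]
        refine Finset.sum_congr rfl fun i _ => ?_
        push_cast
        ring
      rw [h4, h3, mul_zero, sub_zero]
    rw [h2]
    refine reg_sum _ (fun i => (hω i).2 v hv _ fun p e' hp => ?_) fun i => v.reg_one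
    obtain rfl := over_unique hq hp
    have h3 : Ge q 1 (algebraMap ℂ L (a i) - m i) := by
      have h4 := (ha i).neg
      rwa [neg_sub] at h4
    have h4 := hfq.mul h3
    have h5 : -(D q + 1) + 1 = -D q := by ring
    rwa [h5] at h4
  · push Not at hq
    refine hsum.2 v hv f fun p e hp => ?_
    have hpq : p ≠ q := by
      rintro rfl
      exact hq e hp
    have h1 := hf p e hp
    rwa [Finsupp.add_apply, Finsupp.single_eq_of_ne hpq, add_zero] at h1

/-- **A form with many multiples which are global forms.** -/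
theorem exists_TW {L : IntermediateField ℂ K} [IsFF ℂ L] {g p : ℕ}
    (hg : ∀ ω : Fin (g + 1) → (Fin n → Derivation ℂ K K) → K, (∀ i, ω i ∈ TW L n 0) →
      ∃ l : Fin (g + 1) → L, l ≠ 0 ∧ ∀ X, ∑ i, (l i : K) * ω i X = 0)
    {ω : Fin p → (Fin n → Derivation ℂ K K) → K} (hω : ∀ i, GlobalForm n (ω i))
    (hind : LinearIndependent ℂ ω) {N : ℕ} (Q : Fin N → Place ℂ L) (hd : N * g < p) :
    ∃ ω₀ ∈ TW L n (∑ i, Finsupp.single (Q i) 1), ω₀ ≠ 0 := by
  classical
  obtain ⟨W, hW⟩ : ∃ W : Submodule ℂ ((Fin n → Derivation ℂ K K) → K),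
    W = Submodule.span ℂ (Set.range ω) := ⟨_, rfl⟩
  have hWf : FiniteDimensional ℂ W := by
    rw [hW]
    exact FiniteDimensional.span_of_finite ℂ (Set.finite_range ω)
  have hWr : Module.finrank ℂ W = p := by
    rw [hW, finrank_span_eq_card hind, Fintype.card_fin]
  have hW0 : W ≤ TW L n 0 := by
    rw [hW, Submodule.span_le]
    rintro _ ⟨i, rfl⟩
    exact global_le_TW (hω i)
  have hfd : ∀ D : Place ℂ L →₀ ℤ, FiniteDimensional ℂ (W ⊓ TW L n D : Submodule ℂ _) := fun j =>
    Submodule.finiteDimensional_of_le inf_le_left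
  have hstep : ∀ (j : ℕ) (Q : Fin j → Place ℂ L), p ≤ Module.finrank ℂ
      (W ⊓ TW L n (∑ i, Finsupp.single (Q i) 1) : Submodule ℂ _) + j * g := by
    intro j
    induction j with
    | zero =>
      intro Q
      have e3 : (∑ i : Fin 0, Finsupp.single (Q i) (1 : ℤ)) = 0 := by simp
      rw [e3, inf_eq_left.2 hW0, hWr]
      omega
    | succ j ih =>
      intro Q
      obtain ⟨D, hD⟩ : ∃ D : Place ℂ L →₀ ℤ,
        D = ∑ i : Fin j, Finsupp.single (Q i.castSucc) 1 := ⟨_, rfl⟩
      have hD0 : 0 ≤ D := by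
        rw [hD]
        exact Finset.sum_nonneg fun i _ => single_nonneg _
      have h0 : p ≤ Module.finrank ℂ (W ⊓ TW L n D : Submodule ℂ _) + j * g := by
        rw [hD]
        exact ih fun i => Q i.castSucc
      rw [Fin.sum_univ_castSucc, ← hD]
      have h1 := step_dim (W ⊓ TW L n D) (W ⊓ TW L n (D + Finsupp.single (Q (Fin.last j)) 1))
        (inf_le_inf_left _ (TW_anti (le_add_of_nonneg_right (single_nonneg _)))) g fun η hη => by
        obtain ⟨l, hl0, hrel⟩ := hg η fun i => TW_anti hD0 (hη i).2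
        obtain ⟨a, ha, hab⟩ := TW_step D (Q (Fin.last j)) (fun i => (hη i).2) l hl0 hrel
        exact ⟨a, ha, Submodule.sum_mem _ fun i _ => Submodule.smul_mem _ _ (hη i).1, hab⟩
      have h2 : (j + 1) * g = j * g + g := by ring
      omega
  have h1 := hstep N Q
  have h2 : 0 < Module.finrank ℂ
      (W ⊓ TW L n (∑ i, Finsupp.single (Q i) 1) : Submodule ℂ _) := by omega
  have h3 : (W ⊓ TW L n (∑ i, Finsupp.single (Q i) 1) : Submodule ℂ _) ≠ ⊥ := by
    intro h0
    rw [h0, finrank_bot] at h2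
    exact lt_irrefl _ h2
  obtain ⟨ω₀, h4, h5⟩ := (Submodule.ne_bot_iff _).1 h3
  exact ⟨ω₀, h4.2, h5⟩

theorem fibre_of_TW {L : IntermediateField ℂ K} {m : ℕ} (hL : Algebra.trdeg ℂ L = (m : ℕ))
    {D : Place ℂ L →₀ ℤ} {ω : (Fin (m + 1) → Derivation ℂ K K) → K} (h : ω ∈ TW L (m + 1) D) :
    FibreForm L (m + 1) ω := by
  refine ⟨h.1, fun P hP => ?_⟩
  have hdiv : Divisorial (m + 1) P := by
    obtain ⟨t, ht⟩ := exists_tb hL
    refine ⟨fun i => (t i : K), fun F hF => ?_⟩
    have h1 : MvPolynomial.aeval (fun i => (t i : K)) F = ((MvPolynomial.aeval t F : L) : K) := by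
      have := MvPolynomial.aeval_algebraMap_apply (B := K) t F
      exact this
    have h2 : MvPolynomial.aeval t F ≠ 0 := by
      intro h0
      exact hF ((injective_iff_map_eq_zero _).1 ht.1 F h0)
    have h3 : ((MvPolynomial.aeval t F : L) : K) ≠ 0 := fun h0 => h2 (Subtype.ext h0)
    refine ⟨?_, ?_⟩
    · change MvPolynomial.aeval (fun i => (t i : K)) F ≠ 0
      rw [h1]
      exact h3
    · change P.ord (MvPolynomial.aeval (fun i => (t i : K)) F) = 0
      rw [h1]
      exact hP _ (MvPolynomial.aeval t F : L).2 h3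
  have h1 := h.2 P hdiv 1 fun p e hp => by
    exfalso
    obtain ⟨t, ht0, ht⟩ := p.surj
    have h2 := hp.2 t
    have h3 := hP (t : K) t.2 (fun h0 => ht0 (Subtype.ext h0))
    change P.ord (t : K) = _ at h2
    rw [h3, ht, mul_one] at h2
    have := hp.1
    omega
  have h2 : (fun X => ((1 : L) : K) * ω X) = ω := by
    funext X
    change (1 : K) * ω X = ω X
    rw [one_mul]
  rwa [h2] at h1

/-- the global forms separate the fibres -/
theorem separates_TW {m : ℕ} {L : IntermediateField ℂ K} [IsFF ℂ L]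
    (hL : Algebra.trdeg ℂ L = (m : ℕ)) {D : Place ℂ L →₀ ℤ} (U : Finset (L →ₐ[ℂ] Ω))
    (hD : Rl U D = ⊥) :
    Separates L (GlobalForm (m + 1)) (fun ω => ω ∈ TW L (m + 1) D) U := by
  intro φ hadd hmul hsum u hu ω hω
  have h0 := fibre_of_TW hL hω
  have h1 : (fun w : U => φ w.1 ω) ∈ Rl U D := by
    rw [mem_Rl]
    intro f hf
    have h2 := hsum _ (global_of_TW hω hf)
    rw [← h2, ← Finset.sum_coe_sort U]
    refine Finset.sum_congr rfl fun w _ => ?_
    rw [hmul w.1 w.2 f ω h0]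
    ring
  rw [hD, Submodule.mem_bot] at h1
  exact congrFun h1 ⟨u, hu⟩

/-- **Correspondences which hit few fibres of a fibration over a curve.** -/
theorem main_base [Algebra.EssFiniteType ℂ K] [IsAlgClosed Ω]
    (hK : Algebra.trdeg ℂ K = (1 + 1 : ℕ)) (hΩ : Algebra.trdeg ℂ Ω = (1 + 1 : ℕ))
    {L : IntermediateField ℂ K} [IsFF ℂ L] (hLK : ∀ a : K, IsAlgebraic L a → a ∈ L)
    {γ g p d : ℕ} (hγ : ∀ D : Place ℂ L →₀ ℤ, ddeg D + 1 ≤ ell D + γ)
    (hg : ∀ ω : Fin (g + 1) → (Fin (1 + 1) → Derivation ℂ K K) → K,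
      (∀ i, FibreForm L (1 + 1) (ω i)) →
      ∃ l : Fin (g + 1) → K, (∀ i, l i ∈ L) ∧ l ≠ 0 ∧ ∀ X, ∑ i, l i * ω i X = 0)
    (hirr : ∀ ω, FibreForm L (1 + 1) ω → ω ≠ 0 →
      ∀ ω', FibreForm L (1 + 1) ω' → GMSpan L (fun η => η = ω) ω')
    {ω : Fin p → (Fin (1 + 1) → Derivation ℂ K K) → K}
    (hω : ∀ i, GlobalForm (1 + 1) (ω i)) (hind : LinearIndependent ℂ ω) (hd : (γ + d) * g < p)
    {c : (K →ₐ[ℂ] Ω) →₀ ℤ} (hc : NullTrace (1 + 1) c)
    (hcard : ((fun σ : K →ₐ[ℂ] Ω => σ.comp L.val) '' (c.support : Set (K →ₐ[ℂ] Ω))).ncard ≤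
      d + 1) : c ∈ Rat K Ω := by
  classical
  have hL : Algebra.trdeg ℂ L = (1 : ℕ) := by
    rw [IsFF.trdeg]
    norm_num
  obtain ⟨U, hU⟩ : ∃ U, U = c.support.image fun σ => σ.comp L.val := ⟨_, rfl⟩
  by_cases hne : U.Nonempty
  swap
  · rw [Finset.not_nonempty_iff_eq_empty, hU, Finset.image_eq_empty, Finsupp.support_eq_empty]
      at hne
    rw [hne]
    exact zero_mem _
  have hUc : U.card ≤ d + 1 := by
    refine le_trans (le_of_eq ?_) hcard
    rw [hU, ← Finset.coe_image, Set.ncard_coe_finset]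
  obtain ⟨Q, hQ⟩ := exists_sep hγ hne (N := γ + d) (by omega)
  obtain ⟨ω₀, hω₀, hne0⟩ := exists_TW (L := L) (g := g) (fun η hη => by
    obtain ⟨l, hl, hl0, hrel⟩ := hg η fun i => fibre_of_TW hL (hη i)
    refine ⟨fun i => ⟨l i, hl i⟩, fun h0 => hl0 ?_, hrel⟩
    funext i
    exact congrArg Subtype.val (congrFun h0 i)) hω hind Q hd
  refine main hK hΩ L hL hLK (V := fun η => η ∈ TW L (1 + 1) (∑ i, Finsupp.single (Q i) 1))
    (fun η hη => fibre_of_TW hL hη) (fun ω' hω' => ?_) (separates_TW hL U hQ) hc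
    fun σ hσ => by rw [hU]; exact Finset.mem_image_of_mem _ hσ
  refine (hirr ω₀ (fibre_of_TW hL hω₀) hne0 ω' hω').mono ?_
  rintro η rfl
  exact hω₀

end

end Pool.Agent.K6.H85
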